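import Mathlib

/-!
# The mobile general position number of a join with a vertex (MP_73e407_co)

If a finite graph `G` contains a triangle then `mob(G ∨ K₁) ≥ 3`.

Proof: let `a, b, c` be a triangle and `u` the new vertex.  Three robots on a triangle are in general
position, and every vertex `y` has the same adjacency to two of `a, b, c`, say to `a` and `b`.
Then the robot at `u` can move to `y` and back while the other two stay at `a` and `b`.
-/

set_option autoImplicit false

open SimpleGraph

namespace Pool.Agent.Results.MP_73e407_co.TriangleForcesThree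

universe u

section Defs

variable {V : Type u} (G : SimpleGraph V)

/-- No three vertices of `S` lie on a common shortest path. -/
def IsGP (S : Finset V) : Prop :=
  ∀ x ∈ S, ∀ y ∈ S, ∀ z ∈ S, x ≠ y → y ≠ z → x ≠ z →
    ∀ (a b : V) (p : G.Walk a b), p.length = G.dist a b →
      ¬ (x ∈ p.support ∧ y ∈ p.support ∧ z ∈ p.support)

/-- One robot moves to an adjacent unoccupied vertex and the new set is in general position. -/
def LegalMove [DecidableEq V] (S T : Finset V) : Prop :=
  ∃ x ∈ S, ∃ y, y ∉ S ∧ G.Adj x y ∧ T = insert y (S.erase x) ∧ IsGP G T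

/-- `S` is a mobile general position set: it is in general position and some finite sequence of
legal moves starting from `S` visits every vertex. -/
def IsMobileGP [DecidableEq V] (S : Finset V) : Prop :=
  IsGP G S ∧ ∃ l : List (Finset V), (S :: l).IsChain (LegalMove G) ∧ ∀ v, ∃ T ∈ S :: l, v ∈ T

/-- The mobile general position number. -/
noncomputable def mob [DecidableEq V] : ℕ := sSup {k | ∃ S : Finset V, IsMobileGP G S ∧ S.card = k}

/-- The join `G ∨ K₁`: the new vertex `none` is adjacent to every vertex of `G`. -/
def joinOne : SimpleGraph (Option V) where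
  Adj
    | some x, some y => G.Adj x y
    | none, some _ => True
    | some _, none => True
    | none, none => False
  symm := ⟨by
    rintro (_ | x) (_ | y) h
    · exact h
    · trivial
    · trivial
    · exact G.symm.symm _ _ h⟩
  loopless := ⟨by
    rintro (_ | x) h
    · exact h
    · exact G.loopless.irrefl x h⟩

end Defs

section Tour

variable {α : Type*} {R : Finset α → Finset α → Prop} {S : Finset α}

theorem chain_append {l₁ l₂ : List (Finset α)} (h₁ : (S :: l₁).IsChain R)
    (e₁ : (S :: l₁).getLast (by simp) = S) (h₂ : (S :: l₂).IsChain R) :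
    (S :: (l₁ ++ l₂)).IsChain R := by
  rw [← List.cons_append]
  refine h₁.append (List.isChain_cons.mp h₂).2 ?_
  intro x hx y hy
  rw [List.getLast?_eq_getLast_of_ne_nil (by simp), Option.mem_some_iff, e₁] at hx
  subst hx
  exact (List.isChain_cons.mp h₂).1 y hy

/-- Closed loops from `S` through every vertex combine to one tour. -/
theorem exists_tour (L : List α) (h : ∀ v ∈ L, ∃ T, v ∈ T ∧ Relation.ReflTransGen R S T ∧
    Relation.ReflTransGen R T S) : ∃ l : List (Finset α), (S :: l).IsChain R ∧
    (S :: l).getLast (by simp) = S ∧ ∀ v ∈ L, ∃ T ∈ S :: l, v ∈ T := by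
  induction L with
  | nil => exact ⟨[], by simp, by simp, by simp⟩
  | cons v L ih =>
    obtain ⟨l, hl, el, hL⟩ := ih fun w hw => h w (List.mem_cons_of_mem _ hw)
    obtain ⟨T, hvT, hST, hTS⟩ := h v List.mem_cons_self
    obtain ⟨l₁, h₁, e₁⟩ := List.exists_isChain_cons_of_relationReflTransGen hST
    obtain ⟨l₂, h₂, e₂⟩ := List.exists_isChain_cons_of_relationReflTransGen hTS
    have hT : T ∈ S :: l₁ := by
      rw [← e₁]
      exact List.getLast_mem _
    have h₁₂ : (S :: (l₁ ++ l₂)).IsChain R := by
      rw [← List.cons_append]
      refine h₁.append (List.isChain_cons.mp h₂).2 ?_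
      intro x hx y hy
      rw [List.getLast?_eq_getLast_of_ne_nil (by simp), Option.mem_some_iff, e₁] at hx
      subst hx
      exact (List.isChain_cons.mp h₂).1 y hy
    have e₁₂ : (S :: (l₁ ++ l₂)).getLast (by simp) = S := by
      by_cases hl₂ : l₂ = []
      · subst hl₂
        simp only [List.append_nil]
        rw [e₁]
        simpa using e₂
      · rw [List.getLast_cons (by simp [hl₂]), List.getLast_append_of_ne_nil _ hl₂]
        rw [List.getLast_cons hl₂] at e₂
        exact e₂
    refine ⟨l ++ (l₁ ++ l₂), chain_append hl el h₁₂, ?_, ?_⟩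
    · by_cases hl₂ : l₁ ++ l₂ = []
      · simp only [hl₂, List.append_nil]
        exact el
      · rw [List.getLast_cons (fun h => hl₂ (List.append_eq_nil_iff.mp h).2),
          List.getLast_append_of_ne_nil _ hl₂]
        rw [List.getLast_cons hl₂] at e₁₂
        exact e₁₂
    · intro w hw
      rcases List.mem_cons.mp hw with rfl | hw
      · refine ⟨T, ?_, hvT⟩
        rcases List.mem_cons.mp hT with h | h
        · simp [h]
        · simp [h]
      · obtain ⟨T', hT', hw'⟩ := hL w hw
        refine ⟨T', ?_, hw'⟩
        rcases List.mem_cons.mp hT' with h | h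
        · simp [h]
        · simp [h]

end Tour

section GP

variable {V : Type u} {G : SimpleGraph V}

/-- In a graph of diameter at most two, sets without induced paths on three vertices are in
general position. -/
theorem isGP_of (hd : ∀ a b, G.dist a b ≤ 2) {S : Finset V}
    (h : ∀ x ∈ S, ∀ m ∈ S, ∀ z ∈ S, x ≠ z → G.Adj x m → G.Adj m z → G.Adj x z) : IsGP G S := by
  intro x hx y hy z hz hxy hyz hxz a b p hp hsup
  obtain ⟨h1, h2, h3⟩ := hsup
  cases p with
  | nil =>
    simp only [Walk.support_nil, List.mem_singleton] at h1 h2
    exact hxy (h1.trans h2.symm)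
  | @cons _ m _ e1 q =>
    cases q with
    | nil =>
      simp only [Walk.support_cons, Walk.support_nil, List.mem_cons, List.not_mem_nil,
        or_false] at h1 h2 h3
      grind
    | @cons _ m' _ e2 r =>
      cases r with
      | nil =>
        have hab : G.dist a b = 2 := by simpa using hp.symm
        have hmem : a ∈ S ∧ m ∈ S ∧ b ∈ S := by
          simp only [Walk.support_cons, Walk.support_nil, List.mem_cons, List.not_mem_nil,
            or_false] at h1 h2 h3
          grind
        have hne : a ≠ b := by
          rintro rfl
          simp at hab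
        have hadj := h a hmem.1 m hmem.2.1 b hmem.2.2 hne e1 e2
        rw [← dist_eq_one_iff_adj] at hadj
        omega
      | cons e3 s =>
        have := hd a b
        simp only [Walk.length_cons] at hp
        omega

end GP

/-- In `G ∨ K₁` all distances are at most two. -/
theorem dist_le_two {V : Type u} (G : SimpleGraph V) (a b : Option V) :
    (joinOne G).dist a b ≤ 2 := by
  have h : ∀ x : V, (joinOne G).Adj none (some x) := fun _ => trivial
  rcases a with _ | x <;> rcases b with _ | y
  · simp
  · rw [dist_eq_one_iff_adj.mpr (h y)]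
    omega
  · rw [dist_eq_one_iff_adj.mpr (h x).symm]
    omega
  · exact dist_le (Walk.cons (h x).symm (Walk.cons (h y) Walk.nil))

/-- Moving one robot of three. -/
theorem move_of {V : Type u} [DecidableEq V] {G : SimpleGraph V} (hd : ∀ a b, G.dist a b ≤ 2)
    {a b x y : V} (hab : G.Adj a b) (hya : G.Adj y a ↔ G.Adj y b) (hxa : x ≠ a) (hxb : x ≠ b)
    (hya' : y ≠ a) (hyb' : y ≠ b) (hxy : G.Adj x y) :
    LegalMove G {x, a, b} {y, a, b} := by
  refine ⟨x, by simp, y, ?_, hxy, ?_, ?_⟩
  · simp only [Finset.mem_insert, Finset.mem_singleton, not_or]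
    exact ⟨hxy.ne', hya', hyb'⟩
  · ext z
    simp only [Finset.mem_insert, Finset.mem_singleton, Finset.mem_erase]
    grind
  · apply isGP_of hd
    intro p hp m hm q hq hpq h1 h2
    simp only [Finset.mem_insert, Finset.mem_singleton] at hp hm hq
    have hn : ∀ v, ¬ G.Adj v v := fun v => G.loopless.irrefl v
    have hs : ∀ v w, G.Adj v w → G.Adj w v := fun v w => G.symm.symm v w
    grind

/-- If `G` has a triangle (clique number at least three) then `mob (G ∨ K₁) ≥ 3`; in particular
no graph of clique number at least three satisfies `mob (G ∨ K₁) = 2`. -/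
theorem result (V : Type u) [Fintype V] [DecidableEq V] (G : SimpleGraph V)
    (hG : 3 ≤ G.cliqueNum) : 3 ≤ mob (joinOne G) := by
  classical
  -- a triangle
  obtain ⟨a, b, c, hab, hac, hbc⟩ : ∃ a b c, G.Adj a b ∧ G.Adj a c ∧ G.Adj b c := by
    obtain ⟨s, hs⟩ := G.exists_isNClique_cliqueNum
    obtain ⟨t, hts, ht⟩ := Finset.exists_subset_card_eq (hs.card_eq ▸ hG : 3 ≤ s.card)
    obtain ⟨a, b, c, hab, hac, hbc, rfl⟩ := Finset.card_eq_three.mp ht
    have hc := hs.isClique
    exact ⟨a, b, c, hc (hts (by simp)) (hts (by simp)) hab,
      hc (hts (by simp)) (hts (by simp)) hac, hc (hts (by simp)) (hts (by simp)) hbc⟩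
  have hd := dist_le_two G
  set H := joinOne G with hH
  have hu : ∀ x : V, H.Adj none (some x) := fun _ => trivial
  have hG' : ∀ x y, G.Adj x y → H.Adj (some x) (some y) := fun _ _ h => h
  let S : Finset (Option V) := {none, some a, some b}
  have hScard : S.card = 3 := by
    simp [S, hab.ne]
  -- swapping the robots within the four-clique
  have swap : ∀ x y z w : Option V, H.Adj x y → H.Adj x z → H.Adj x w → H.Adj y z → H.Adj y w →
      H.Adj z w → LegalMove H {x, z, w} {y, z, w} := by
    intro x y z w h1 h2 h3 h4 h5 h6
    exact move_of hd h6 (by simp [h4, h5]) h2.ne h3.ne h4.ne h5.ne h1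
  have key : ∀ v, ∃ T, v ∈ T ∧ Relation.ReflTransGen (LegalMove H) S T ∧
      Relation.ReflTransGen (LegalMove H) T S := by
    -- the robot at `none` visits `y` while the others stay at `a', b'`
    have visit : ∀ a' b' y : V, G.Adj a' b' → y ≠ a' → y ≠ b' → (G.Adj y a' ↔ G.Adj y b') →
        LegalMove H {none, some a', some b'} {some y, some a', some b'} ∧
        LegalMove H {some y, some a', some b'} {none, some a', some b'} := by
      intro a' b' y h1 h2 h3 h4
      have h5 : H.Adj none (some a') ↔ H.Adj none (some b') := by simp [hu]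
      have h6 : H.Adj (some y) (some a') ↔ H.Adj (some y) (some b') := h4
      have e2 : (some y : Option V) ≠ some a' := fun h => h2 (Option.some.inj h)
      have e3 : (some y : Option V) ≠ some b' := fun h => h3 (Option.some.inj h)
      exact ⟨move_of hd (hG' _ _ h1) h6 (by simp) (by simp) e2 e3 (hu y),
        move_of hd (hG' _ _ h1) h5 e2 e3 (by simp) (by simp) (hu y).symm⟩
    have turn : ∀ a' b' c' : V, G.Adj a' b' → G.Adj a' c' → G.Adj b' c' →
        LegalMove H {none, some a', some b'} {none, some a', some c'} := by
      intro a' b' c' h1 h2 h3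
      have h4 := swap (some b') (some c') none (some a') (hG' _ _ h3) (hu b').symm
        (hG' _ _ h1).symm (hu c').symm (hG' _ _ h2).symm (hu a')
      have e1 : ({some b', none, some a'} : Finset (Option V)) = {none, some a', some b'} := by
        ext z
        simp only [Finset.mem_insert, Finset.mem_singleton]
        tauto
      have e2 : ({some c', none, some a'} : Finset (Option V)) = {none, some a', some c'} := by
        ext z
        simp only [Finset.mem_insert, Finset.mem_singleton]
        tauto
      rwa [e1, e2] at h4
    intro v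
    by_cases hvS : v ∈ S
    · exact ⟨S, hvS, Relation.ReflTransGen.refl, Relation.ReflTransGen.refl⟩
    obtain ⟨y, rfl⟩ : ∃ y, v = some y := by
      rcases v with _ | y
      · exact absurd (by simp [S]) hvS
      · exact ⟨y, rfl⟩
    have hya : y ≠ a := by
      rintro rfl
      exact hvS (by simp [S])
    have hyb : y ≠ b := by
      rintro rfl
      exact hvS (by simp [S])
    by_cases h1 : G.Adj y a ↔ G.Adj y b
    · obtain ⟨m1, m2⟩ := visit a b y hab hya hyb h1
      exact ⟨_, by simp, Relation.ReflTransGen.single m1, Relation.ReflTransGen.single m2⟩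
    have hSb : ({none, some b, some a} : Finset (Option V)) = S := by
      ext z
      simp only [S, Finset.mem_insert, Finset.mem_singleton]
      tauto
    -- the two other triangles through `none`
    have t1 : LegalMove H S {none, some a, some c} := turn a b c hab hac hbc
    have t1' : LegalMove H {none, some a, some c} S := turn a c b hac hab hbc.symm
    have t2 : LegalMove H S {none, some b, some c} := hSb ▸ turn b a c hab.symm hbc hac
    have t2' : LegalMove H {none, some b, some c} S := hSb ▸ turn b c a hbc hab.symm hac.symm
    by_cases hyc : y = c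
    · subst hyc
      exact ⟨_, by simp, Relation.ReflTransGen.single t1, Relation.ReflTransGen.single t1'⟩
    by_cases h2 : G.Adj y a ↔ G.Adj y c
    · obtain ⟨m1, m2⟩ := visit a c y hac hya hyc h2
      exact ⟨_, by simp, (Relation.ReflTransGen.single t1).tail m1,
        (Relation.ReflTransGen.single m2).tail t1'⟩
    · have h3 : G.Adj y b ↔ G.Adj y c := by tauto
      obtain ⟨m1, m2⟩ := visit b c y hbc hyb hyc h3
      exact ⟨_, by simp, (Relation.ReflTransGen.single t2).tail m1,
        (Relation.ReflTransGen.single m2).tail t2'⟩
  obtain ⟨l, hl, -, hv⟩ := exists_tour (Finset.univ : Finset (Option V)).toList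
    (fun v _ => key v)
  have hS : IsMobileGP H S := by
    refine ⟨?_, l, hl, fun v => hv v (by simp)⟩
    apply isGP_of hd
    intro p hp m hm q hq hpq h1 h2
    simp only [S, Finset.mem_insert, Finset.mem_singleton] at hp hm hq
    have := hu a
    have := hu b
    have := hG' a b hab
    have hs : ∀ v w, H.Adj v w → H.Adj w v := fun v w => H.symm.symm v w
    grind
  apply le_csSup
  · refine ⟨Fintype.card (Option V), ?_⟩
    rintro k ⟨T, -, rfl⟩
    exact T.card_le_univ
  · exact ⟨S, hS, hScard⟩

end Pool.Agent.Results.MP_73e407_co.TriangleForcesThree
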